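import Pool.Agent.V5helper19.ER.Stm

/-!
# Project ER, job DM1: right invariant spaces beyond level 1 have dimension at least `n ^ 2 / 100`
-/

set_option autoImplicit false
open Finset V5helper19.ER

namespace V5helper65.ER

/-- Two disjoint ordered quadruples are two blocks of an embedding. -/
theorem exists_emb {n m : ℕ} (hmn : 4 * m ≤ n) (i₀ i₁ : Fin m) (hi : i₀ ≠ i₁)
    (a b c d a' b' c' d' : Fin n) (h : [a, b, c, d, a', b', c', d'].Nodup) :
    ∃ e : Fin m × Fin 4 ↪ Fin n,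
      (e (i₀, 0) = a ∧ e (i₀, 1) = b ∧ e (i₀, 2) = c ∧ e (i₀, 3) = d) ∧
      (e (i₁, 0) = a' ∧ e (i₁, 1) = b' ∧ e (i₁, 2) = c' ∧ e (i₁, 3) = d') := by
  classical
  have hinj := List.nodup_iff_injective_get.mp h
  let f : Fin m × Fin 4 → Fin n := fun p =>
    [a, b, c, d, a', b', c', d'].get
      ⟨if p.1 = i₀ then p.2.val else 4 + p.2.val, by
        have := p.2.isLt
        simp only [List.length_cons, List.length_nil]
        split_ifs <;> omega⟩
  let s : Finset (Fin m × Fin 4) := univ.filter fun p => p.1 = i₀ ∨ p.1 = i₁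
  have hfs : Set.InjOn f s := by
    intro p hp q hq hpq
    have hp' : p.1 = i₀ ∨ p.1 = i₁ := by simpa [s] using hp
    have hq' : q.1 = i₀ ∨ q.1 = i₁ := by simpa [s] using hq
    have h1 := Fin.mk.inj_iff.mp (hinj hpq)
    have hp2 := p.2.isLt
    have hq2 := q.2.isLt
    rcases hp' with hp' | hp' <;> rcases hq' with hq' | hq'
    · rw [if_pos hp', if_pos hq'] at h1
      exact Prod.ext (hp'.trans hq'.symm) (Fin.ext h1)
    · rw [if_pos hp', if_neg (by rw [hq']; exact hi.symm)] at h1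
      omega
    · rw [if_neg (by rw [hp']; exact hi.symm), if_pos hq'] at h1
      omega
    · rw [if_neg (by rw [hp']; exact hi.symm), if_neg (by rw [hq']; exact hi.symm)] at h1
      exact Prod.ext (hp'.trans hq'.symm) (Fin.ext (by omega))
  have hcard : Fintype.card (Fin m × Fin 4) = 4 * m := by
    rw [Fintype.card_prod, Fintype.card_fin, Fintype.card_fin, mul_comm]
  have hc1 : (s.image f).card ≤ 4 * m := by
    refine card_image_le.trans ?_
    rw [← hcard]
    exact card_le_univ s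
  obtain ⟨t, hst, htc⟩ := exists_superset_card_eq hc1 (by rwa [Fintype.card_fin])
  obtain ⟨g, hg⟩ := exists_equiv_extend_of_card_eq (by rw [hcard, htc]) hst hfs
  refine ⟨⟨fun p => (g p : Fin n), fun p q hpq => g.injective (Subtype.ext hpq)⟩, ?_, ?_⟩
  · have h0 : ∀ r : Fin 4, ((g (i₀, r) : Fin n)) = f (i₀, r) := fun r =>
      hg (i₀, r) (by simp [s])
    refine ⟨?_, ?_, ?_, ?_⟩ <;>
      · show ((g (i₀, _) : Fin n)) = _
        rw [h0]
        simp [f]
  · have h0 : ∀ r : Fin 4, ((g (i₁, r) : Fin n)) = f (i₁, r) := fun r =>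
      hg (i₁, r) (by simp [s])
    refine ⟨?_, ?_, ?_, ?_⟩ <;>
      · show ((g (i₁, _) : Fin n)) = _
        rw [h0]
        simp [f, hi.symm]

theorem isCol_span {n m : ℕ} {e : Fin m × Fin 4 ↪ Fin n} {γ : Fin m → Bool × Bool}
    {w : G n → ℝ} (h : IsCol e γ w) : ∀ v ∈ Submodule.span ℝ {w}, IsCol e γ v := by
  intro v hv
  obtain ⟨c, rfl⟩ := Submodule.mem_span_singleton.mp hv
  intro i x y
  refine ⟨fun hy => ?_, fun hy => ?_⟩
  · rw [Pi.smul_apply, Pi.smul_apply, (h i x y).1 hy]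
    simp only [smul_eq_mul]
    ring
  · rw [Pi.smul_apply, Pi.smul_apply, (h i x y).2 hy]
    simp only [smul_eq_mul]
    ring

theorem t_DM1 (hFE : S_FE) (hDT : S_DT) (hP1 : S_P1) (hP2 : S_P2) (hP3 : S_P3) (hP4 : S_P4) :
    S_DM1 := by
  classical
  refine ⟨20, fun n hn W hW hR hV => ?_⟩
  obtain ⟨w, hwW, hw0⟩ := (Submodule.ne_bot_iff W).mp hW
  -- a second difference which does not vanish
  have h1 : ∃ (u v : G n) (a b c d a' b' c' d' : Fin n), DTr u a b c d ∧ DTr v a' b' c' d' ∧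
      [a, b, c, d, a', b', c', d'].Nodup ∧ ¬ D2 w u v := by
    by_contra hcon
    push Not at hcon
    apply hw0
    funext x
    exact hFE n (by omega) w (hV w hwW) (hDT n (by omega) w
      fun u v a b c d a' b' c' d' hu hv hnd => hcon u v a b c d a' b' c' d' hu hv hnd) x
  obtain ⟨u, v, a, b, c, d, a', b', c', d', hu, hv, hnd, hD⟩ := h1
  -- the blocks
  obtain ⟨m, hm⟩ : ∃ m : ℕ, m = (n - 2) / 4 := ⟨_, rfl⟩
  have hm1 : 4 * m + 2 ≤ n := by omega
  have hm2 : n ≤ 4 * m + 5 := by omega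
  have hm3 : 2 ≤ m := by omega
  obtain ⟨e, ⟨e0, e1, e2, e3⟩, f0, f1, f2', f3⟩ := exists_emb (n := n) (m := m) (by omega)
    ⟨0, by omega⟩ ⟨1, by omega⟩ (by simp) a b c d a' b' c' d' hnd
  have hue : (u : Equiv.Perm (Fin n)) = uu e ⟨0, by omega⟩ := by
    rw [hu.2]
    unfold uu
    rw [e0, e1, e2, e3]
  have hve : (v : Equiv.Perm (Fin n)) = uu e ⟨1, by omega⟩ := by
    rw [hv.2]
    unfold uu
    rw [f0, f1, f2', f3]
  obtain ⟨γ, w', hw'W, hw'0, hcol, hsup⟩ := (hP1 n m e W hR).2.1 w ⟨0, by omega⟩ ⟨1, by omega⟩ u v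
    hwW (by simp) hue hve hD
  have htm : sup γ ≤ m := by
    unfold V5helper19.ER.sup
    refine (card_le_univ _).trans ?_
    rw [Fintype.card_fin]
  -- all colourings with the same support size
  have hall : ∀ γ' : Fin m → Bool × Bool, sup γ' = sup γ → ∃ w ∈ W, w ≠ 0 ∧ IsCol e γ' w :=
    fun γ' h => hP2 n m hm1 e e W hR γ γ' h.symm ⟨w', hw'W, hw'0, hcol⟩
  choose! ww hww using hall
  have hcount := (hP4 m (sup γ) htm).1 hsup
  have hbig : (n : ℝ) ^ 2 ≤
      100 * ((univ.filter fun γ' : Fin m → Bool × Bool => sup γ' = sup γ).card : ℝ) := by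
    have h2 : ((m.choose 2 : ℕ) : ℝ) ≤
        ((univ.filter fun γ' : Fin m → Bool × Bool => sup γ' = sup γ).card : ℝ) := by
      exact_mod_cast hcount
    rw [Nat.cast_choose_two] at h2
    have h3 : (n : ℝ) ≤ 4 * m + 5 := by exact_mod_cast hm2
    have h4 : (20 : ℝ) ≤ n := by exact_mod_cast hn
    have h5 : ((n : ℝ) - 5) / 4 ≤ m := by linarith
    have h6 : (0 : ℝ) ≤ ((n : ℝ) - 9) / 4 := by linarith
    have h7 : ((n : ℝ) - 5) / 4 * (((n : ℝ) - 9) / 4) ≤ (m : ℝ) * ((m : ℝ) - 1) :=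
      mul_le_mul h5 (by linarith) h6 (by linarith)
    nlinarith [h2, h7, h4]
  refine ⟨?_, m, e, univ.filter fun γ' : Fin m → Bool × Bool => sup γ' = sup γ, hbig, ?_⟩
  · have h2 := hP3 n m e W (univ.filter fun γ' : Fin m → Bool × Bool => sup γ' = sup γ)
      (fun γ' => Submodule.span ℝ {ww γ'}) 1 (by
        intro γ' hγ'
        have hγ := (mem_filter.mp hγ').2
        obtain ⟨k1, k2, k3⟩ := hww γ' hγ
        refine ⟨?_, ?_, isCol_span k3⟩
        · rw [Submodule.span_singleton_le_iff_mem]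
          exact k1
        · rw [finrank_span_singleton k2])
    rw [one_mul] at h2
    have h3 : ((univ.filter fun γ' : Fin m → Bool × Bool => sup γ' = sup γ).card : ℝ) ≤
        Module.finrank ℝ W := by exact_mod_cast h2
    linarith
  · intro γ' hγ'
    have hγ := (mem_filter.mp hγ').2
    refine ⟨?_, ww γ', hww γ' hγ⟩
    rw [hγ]
    omega

end V5helper65.ER
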